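import Pool.Agent.Work.MP_0b5d1f_cd.Final
import Pool.Agent.Work.MP_0b5d1f_cd.Dich

set_option autoImplicit false

/-!
# Almost every one-relator pro-`p` group is torsion-free

`FreeProP p ι` are word for word the hypotheses of the frozen statement `S00679`: `F` is a free
pro-`p` group on the family `ι` converging to `1`.
The definitions `FreeProP`, `ncl`, `TorsionFreeMod`, `NoZeroDiv` are in
`Pool/Agent/Work/MP_0b5d1f_al/StmtDefs.lean`, the definitions `Cy`, `Wr`, `wa`, `wd`, `Ks` in
`Pool/Agent/Work/MP_0b5d1f_ae/Interface.lean`, the definitions `dz`, `HZ` in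
`Pool/Agent/Work/MP_0b5d1f_cd/Interface.lean`.
-/

namespace Pool.Agent.Results.MP_0b5d1f_al.AlmostEveryRelator

open Pool.Agent.Serre Pool.Agent.Work.MP_0b5d1f_ae Pool.Agent.Work.MP_0b5d1f_cd MeasureTheory

/-- Let `F` be free pro-`p` on a family converging to `1` and let `x1 ≠ x2` be two indices.
`Ks p n ι x1 x2` is the set of the kernels of the homomorphisms with open kernel from `F` to the
wreath product of `C_p` and `C_(p^n)` which map the pair `x1, x2` or the pair `x2, x1` to
`(1, 1), (δ, b)` and the other members to `1`. There are at most `2 p^n` of them, all of index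
`p^(p^n + n)`. If for some `n` the relator `r` lies in none of them, the completed group algebra
`F_p[[F/r^F]]` has no zero divisors, `F/r^F` is torsion-free and every continuous `3`-cocycle of
`F/r^F` with values in `F_p` is a coboundary (so the cohomological dimension of `F/r^F` is at most
`2`). The set `E` of the other `r` is closed, has dense complement and is null for every Haar
measure of `F`. Finally, every `r` is `v ^ (p ^ k) * c`, `k ≥ 0`, `c` in the closure of `[N, N]`,
`N = v^F`, such that `F_p[[F/N]]` has no zero divisors, `F/N` is torsion-free, `H^3(F/N, F_p) = 0`,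
and `N = r^F` if `k = 0`. -/
theorem result :
    ∀ (p : ℕ), p.Prime → ∀ (X F : Type) [Group F] [TopologicalSpace F] [IsTopologicalGroup F]
      [CompactSpace F] [T2Space F] [TotallyDisconnectedSpace F] (ι : X → F),
      FreeProP p ι → ∀ x1 x2 : X, x1 ≠ x2 →
      (∀ (r : F) (n : ℕ), (∀ K ∈ Ks p n ι x1 x2, r ∉ K) →
          NoZeroDiv p (ncl r) ∧ TorsionFreeMod (ncl r) ∧ HZ p (F ⧸ ncl r) 2) ∧
        (∀ n : ℕ, (Ks p n ι x1 x2).Finite ∧ (Ks p n ι x1 x2).ncard ≤ 2 * p ^ n ∧
          ∀ K ∈ Ks p n ι x1 x2, K.Normal ∧ IsOpen (K : Set F) ∧ K.index = p ^ (p ^ n + n)) ∧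
        (∃ E : Set F, E = {r : F | ∀ n : ℕ, ∃ K ∈ Ks p n ι x1 x2, r ∈ K} ∧
          IsClosed E ∧ Dense Eᶜ ∧
          ∀ (_ : MeasurableSpace F) (_ : BorelSpace F) (μ : Measure F),
            μ.IsHaarMeasure → μ E = 0) ∧
        ∀ r : F, ∃ (v : F) (k : ℕ), r ∈ ncl v ∧
          (v ^ (p ^ k))⁻¹ * r ∈ (⁅ncl v, ncl v⁆ : Subgroup F).topologicalClosure ∧
          NoZeroDiv p (ncl v) ∧ TorsionFreeMod (ncl v) ∧ HZ p (F ⧸ ncl v) 2 ∧
          (k = 0 → ncl v = ncl r) := by
  intro p hp X F _ _ _ _ _ _ ι hF x1 x2 h12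
  obtain ⟨h1, h2, h3⟩ := Pool.Agent.Work.MP_0b5d1f_cd.final p hp X F ι hF x1 x2 h12
  exact ⟨h1, h2, h3, fun r => normal_form hp hF r⟩

end Pool.Agent.Results.MP_0b5d1f_al.AlmostEveryRelator
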