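import Pool.Agent.Work.MP_0b5d1f_al.Nice

set_option autoImplicit false

/-!
# The central extension `F/[R, F]` of a one-relator pro-`p` group `F/R`

`FreeProP p ι` are word for word the hypotheses of the frozen statement `S00679`: `F` is a free
pro-`p` group on the family `ι` converging to `1`.  The definitions `FreeProP`, `ncl`,
`TorsionFreeMod` are in `Pool/Agent/Work/MP_0b5d1f_al/StmtDefs.lean`; `cen r` is the closure of
`[R, F]`, `R = r^F`.
-/

namespace Pool.Agent.Results.MP_0b5d1f_al.CentralExtension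

open Pool.Agent.Serre

/-- Let `r ≠ 1`, `R = r^F` and `C` the closure of `[R, F]`.

(1) `F/C` is torsion-free if and only if `(x ^ p)^F = R` for all `x ∉ R` with `x ^ p ∈ R`.

(2) If no element associated to `r` is a `p`-th power then `F/R` is torsion-free if and only if
`F/C` is torsion-free.

(3) There is a closed normal subgroup `L ≥ C` with `L ∩ R = C` which contains every `x` with
`x ^ p ∈ C`, and up to elements of `R` every `x` with `x ^ p ∈ R` and `(x ^ p)^F ≠ R`, such that
`L/C` has an elementary abelian abelianization and no nontrivial torsion-free quotient `L/L'`, `L'`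
closed and normal in `F`; and `L = C` if and only if `F/C` is torsion-free. -/
theorem result :
    ∀ (p : ℕ), p.Prime → ∀ (X F : Type) [Group F] [TopologicalSpace F] [IsTopologicalGroup F]
      [CompactSpace F] [T2Space F] [TotallyDisconnectedSpace F] (ι : X → F),
      FreeProP p ι → ∀ r : F, r ≠ 1 →
      (TorsionFreeMod (cen r) ↔ ∀ x : F, x ∉ ncl r → x ^ p ∈ ncl r → ncl (x ^ p) = ncl r) ∧
      ((∀ s : F, ncl s = ncl r → ¬ ∃ t : F, s = t ^ p) →
        (TorsionFreeMod (ncl r) ↔ TorsionFreeMod (cen r))) ∧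
      ∃ L : Subgroup F, L.Normal ∧ IsClosed (L : Set F) ∧ cen r ≤ L ∧ L ⊓ ncl r = cen r ∧
        (∀ x : F, x ^ p ∈ cen r → x ∈ L) ∧
        (∀ x : F, x ^ p ∈ ncl r → ncl (x ^ p) ≠ ncl r → x ∈ L ⊔ ncl r) ∧
        (∀ x ∈ L, x ^ p ∈ (⁅L, L⁆ : Subgroup F).topologicalClosure ⊔ cen r) ∧
        (∀ L' : Subgroup F, L'.Normal → IsClosed (L' : Set F) → cen r ≤ L' → L' ≤ L →
          (∀ x ∈ L, x ^ p ∈ L' → x ∈ L') → L' = L) ∧
        (L = cen r ↔ TorsionFreeMod (cen r)) := by
  intro p hp X F _ _ _ _ _ _ ι hF r hr1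
  refine ⟨tf_cen_iff hp hF hr1, fun hass => ⟨fun htf => ?_, fun htf => ?_⟩,
    nice_main hp hF hr1⟩
  · exact (tf_cen_iff hp hF hr1).2 fun x hx hxp => absurd (htf x p hp.pos hxp) hx
  · refine tf_of_p hp hF.index (ncl_normal r) (ncl_closed r) fun x hxp => ?_
    by_contra hx
    exact hass (x ^ p) ((tf_cen_iff hp hF hr1).1 htf x hx hxp) ⟨x, rfl⟩

end Pool.Agent.Results.MP_0b5d1f_al.CentralExtension
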