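import Pool.Agent.Work.MP_0b5d1f_al.Final2

set_option autoImplicit false

/-!
# Torsion in one-relator pro-`p` groups

`FreeProP p ι` are word for word the hypotheses of the frozen statement `S00679`: `F` is a free
pro-`p` group on the family `ι` converging to `1`.
The definitions `FreeProP`, `ncl`, `TorsionFreeMod`, `NoZeroDiv`, `PolyTF`, `cds` are in
`Pool/Agent/Work/MP_0b5d1f_al/StmtDefs.lean`.
-/

namespace Pool.Agent.Results.MP_0b5d1f_al.TorsionOutsideCommutators

open Pool.Agent.Serre

/-- Dichotomy for one-relator pro-`p` groups.  Either the completed group algebra `F_p[[F/R]]` has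
no zero divisors and `F/R` is torsion-free, or the relator `r` is a proper `p`-power
`v ^ (p ^ k)`, `k ≥ 1`, modulo the closed commutator subgroup of `N = v^F`, with `F_p[[F/N]]` a
domain.  In the second case, for every element `x` of order `p` modulo `R`, the element `r` is
associated to the `p`-th power `x ^ p` if and only if `r` lies in `x^F`, and if and only if `x`
does not lie in `R [N, N]`. -/
theorem result :
    ∀ (p : ℕ), p.Prime → ∀ (X F : Type) [Group F] [TopologicalSpace F] [IsTopologicalGroup F]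
      [CompactSpace F] [T2Space F] [TotallyDisconnectedSpace F] (ι : X → F),
      FreeProP p ι → ∀ r : F,
      (NoZeroDiv p (ncl r) ∧ TorsionFreeMod (ncl r)) ∨
      ∃ (v : F) (k : ℕ), 1 ≤ k ∧
        r ∈ ncl v ∧
        (v ^ (p ^ k))⁻¹ * r ∈ (⁅ncl v, ncl v⁆ : Subgroup F).topologicalClosure ∧
        NoZeroDiv p (ncl v) ∧ TorsionFreeMod (ncl v) ∧
        (∀ L : Subgroup F, PolyTF L → r ∈ L → v ∈ L) ∧
        (∀ i : ℕ, r ∈ cds F i → v ∈ cds F i) ∧
        ∀ x : F, x ∉ ncl r → x ^ p ∈ ncl r →
          (ncl (x ^ p) = ncl r ↔ r ∈ ncl x) ∧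
          (ncl (x ^ p) = ncl r ↔
            x ∉ ncl r ⊔ (⁅ncl v, ncl v⁆ : Subgroup F).topologicalClosure) := by
  intro p hp X F _ _ _ _ _ _ ι hF r
  exact main2 hp hF r

end Pool.Agent.Results.MP_0b5d1f_al.TorsionOutsideCommutators
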