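import Pool.Agent.Work.MP_0b5d1f_al.TorQuot

set_option autoImplicit false

/-!
# Quotients of one-relator pro-`p` groups by elements of order `p`

`FreeProP p ι` are word for word the hypotheses of the frozen statement `S00679`: `F` is a free
pro-`p` group on the family `ι` converging to `1`.  The definitions `FreeProP`, `ncl`,
`TorsionFreeMod`, `NoZeroDiv` are in `Pool/Agent/Work/MP_0b5d1f_al/StmtDefs.lean`, `nclS S` is the
closed normal subgroup generated by the set `S`.
-/

namespace Pool.Agent.Results.MP_0b5d1f_al.TorsionQuotient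

open Pool.Agent.Serre

/-- Let `R = r^F` and let `A` be a set of elements with `x ^ p ∈ R`.  Let `L` be the closed normal
subgroup generated by `R` and `A`.  If the completed group algebra `F_p[[F/L]]` of the quotient
`F/L` has no zero divisors then `L = R` and `F/R` is torsion-free, or some `x ∈ A` outside `R` has
`(x ^ p)^F = R`, so that `r` is associated to the `p`-th power `x ^ p`. -/
theorem result :
    ∀ (p : ℕ), p.Prime → ∀ (X F : Type) [Group F] [TopologicalSpace F] [IsTopologicalGroup F]
      [CompactSpace F] [T2Space F] [TotallyDisconnectedSpace F] (ι : X → F),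
      FreeProP p ι → ∀ (r : F) (A : Set F), (∀ x ∈ A, x ^ p ∈ ncl r) →
      NoZeroDiv p (nclS (insert r A)) →
      (nclS (insert r A) = ncl r ∧ TorsionFreeMod (ncl r)) ∨
      ∃ x ∈ A, x ∉ ncl r ∧ ncl (x ^ p) = ncl r := by
  intro p hp X F _ _ _ _ _ _ ι hF r A hA hnz
  exact tor_quot hp hF r A hA hnz

end Pool.Agent.Results.MP_0b5d1f_al.TorsionQuotient
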